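import Mathlib
import Pool.Agent.R206.Horse.TropB

namespace Pool.Agent.Results.MP_415091_an.NonPeriodic

open Filter

/-- `x n` is the term with index `n - 2` of the problem. -/
def IsSol (α A B : ℝ) (x : ℕ → ℝ) : Prop :=
  0 ≤ x 0 ∧ 0 ≤ x 1 ∧ 0 ≤ x 2 ∧
    ∀ n, x (n + 3) = (α + x n) / (A + B * x (n + 2) + x (n + 1))

/-- the positive equilibrium -/
noncomputable def xbar (α A B : ℝ) : ℝ :=
  (1 - A + Real.sqrt ((1 - A) ^ 2 + 4 * α * (B + 1))) / (2 * (B + 1))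

/-- bounded, not convergent to the equilibrium, not convergent to any periodic sequence -/
def Wild (α A B : ℝ) (x : ℕ → ℝ) : Prop :=
  IsSol α A B x ∧ (∃ M, ∀ n, x n ≤ M) ∧
    (¬ Tendsto x atTop (nhds (xbar α A B))) ∧
    ∀ p : ℕ → ℝ, (∃ k : ℕ, 1 ≤ k ∧ ∀ n, p (n + k) = p n) →
      ¬ Tendsto (fun n => x n - p n) atTop (nhds 0)

theorem family {g α A B : ℝ} (hg : 20000 ≤ g)
    (hα0 : Real.exp (5 * g) ≤ α) (hα1 : α ≤ 2 * Real.exp (5 * g))
    (hA0 : 0 < A) (hA1 : A ≤ Real.exp (-13 * g))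
    (hB0 : Real.exp (-20 * g) ≤ B) (hB1 : B ≤ 2 * Real.exp (-20 * g)) :
    ∃ x : ℕ → ℝ, Wild α A B x := by
  have hP : Pool.Agent.R206.Horse.B.Par g α A B := ⟨hg, hα0, hα1, hA0.le, hA1, hB0, hB1⟩
  obtain ⟨x, h1, h2, h3, h4⟩ := Pool.Agent.R206.Horse.B.exists_nonperiodic hP
  refine ⟨x, ⟨(h1 0).le, (h1 1).le, (h1 2).le, h2⟩, ⟨_, h3⟩, ?_, ?_⟩
  · intro hcon
    refine h4 (fun _ => xbar α A B) 1 one_pos (fun _ => rfl) ?_
    have := hcon.sub_const (xbar α A B)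
    rwa [sub_self] at this
  · rintro p ⟨k, hk, hp⟩
    exact h4 p k hk hp

/-- Affirmative answer to Q1, together with an explicit region of parameters. -/
theorem result :
    (∃ α A B : ℝ, 0 < α ∧ 0 < A ∧ 0 < B ∧ ∃ x : ℕ → ℝ, Wild α A B x) ∧
    ∀ g α A B : ℝ, 20000 ≤ g → Real.exp (5 * g) ≤ α → α ≤ 2 * Real.exp (5 * g) →
      0 < A → A ≤ Real.exp (-13 * g) →
      Real.exp (-20 * g) ≤ B → B ≤ 2 * Real.exp (-20 * g) →
      ∃ x : ℕ → ℝ, Wild α A B x := by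
  constructor
  · refine ⟨Real.exp (5 * 20000), Real.exp (-13 * 20000), Real.exp (-20 * 20000),
      Real.exp_pos _, Real.exp_pos _, Real.exp_pos _, ?_⟩
    have h1 := Real.exp_pos (5 * 20000)
    have h2 := Real.exp_pos (-20 * 20000)
    exact family le_rfl le_rfl (by linarith) (Real.exp_pos _) le_rfl le_rfl (by linarith)
  · intro g α A B hg hα0 hα1 hA0 hA1 hB0 hB1
    exact family hg hα0 hα1 hA0 hA1 hB0 hB1

end Pool.Agent.Results.MP_415091_an.NonPeriodic
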